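import Mathlib
import Pool.Agent.H22.VM.Targets

set_option autoImplicit false

open Finset Polynomial

namespace Pool.Agent.H53.VMV

open Pool.Agent.H22.VM

theorem t_PT (hBI : T_BI) (hB0 : T_B0) : T_PT := by
  intro p k σ ρ γ η s M L xT n b₁ β hp hk hPar hM hL hβ hxT ι Ω _ w R r F hw hmo hfin hBL
    l b hl1 hlk hβb hbn hcase
  obtain ⟨hσ0, hσ1, hρ0, hpar⟩ := hPar
  obtain ⟨hρl, hσl1, hσls, -, hsl, -⟩ := hpar l hl1 hlk
  have hkl1 : 1 ≤ k - l := by omega
  have hklk : k - l < k := by omega
  obtain ⟨-, hσkl1, -, -, -, -⟩ := hpar (k - l) hkl1 hklk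
  have hs2 : 2 < s := by linarith
  have hs0 : 0 < s := by linarith
  have hb6 : 3 * k * l ≤ b := le_trans (Nat.mul_le_mul_right l hβ) hβb
  have hb1 : 1 ≤ b := by
    have : 1 ≤ 3 * k * l := Nat.mul_pos (by omega) (by omega)
    omega
  obtain ⟨-, hB2, hB3, hB4⟩ := hB0 p n s M L hp hM hs0 ι Ω w R r F hw hmo hfin
  refine ⟨fun h => by omega, ?_, ?_⟩
  · intro h1 a ha1 han h4
    rcases hcase with ⟨-, hb⟩ | ⟨h2, -⟩
    · exact hBL a b ha1 han hb1 hb hbn h4
    · omega
  · intro h2
    have key : n ≤ (k - l + 1) * b / l →
        BL p s n w R r F M L (σ l) (min ((k - l + 1) * b / l) n) b xT := by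
      intro hn
      rw [min_eq_right hn]
      refine hB4 (σ l) n b (σ l / s * L) xT ?_ (hB2 (σ l) b (by linarith) (by linarith) hbn)
      have : L / s ≤ σ l / s * L := by
        rw [div_mul_eq_mul_div]
        apply div_le_div_of_nonneg_right _ hs0.le
        nlinarith
      linarith
    rcases hcase with ⟨h1, -⟩ | ⟨-, hn | ⟨hb, hA⟩⟩
    · omega
    · exact key hn
    · by_cases hn : n ≤ (k - l + 1) * b / l
      · exact key hn
      · push Not at hn
        rw [min_eq_left hn.le]
        set A := (k - l + 1) * b / l with hAdef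
        have hl0 : 0 < l := by omega
        have hAl : A * l ≤ (k - l + 1) * b := Nat.div_mul_le_self _ _
        have hAl2 : (k - l + 1) * b < A * l + l := by
          have := Nat.lt_div_mul_add (a := (k - l + 1) * b) hl0
          rw [← hAdef] at this
          exact this
        -- lower bound: (k-1) A + (k-2) ≥ 2 b
        have hlow : 2 * b ≤ (k - 1) * A + (k - 1) := by
          have h3 : 2 * b ≤ (k - l + 1) * b := Nat.mul_le_mul_right b (by omega)
          have h4 : A * l ≤ A * (k - 1) := Nat.mul_le_mul_left A (by omega)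
          have h5 : l ≤ k - 1 := by omega
          calc 2 * b ≤ (k - l + 1) * b := h3
            _ ≤ A * l + l := hAl2.le
            _ ≤ A * (k - 1) + (k - 1) := by omega
            _ = (k - 1) * A + (k - 1) := by ring
        have hbig : 6 * k ≤ b := by
          calc 6 * k = 3 * k * 2 := by ring
            _ ≤ 3 * k * l := Nat.mul_le_mul_left _ h2
            _ ≤ b := hb6
        have hkA : (k - 1) * A ≤ k * A := Nat.mul_le_mul_right A (by omega)
        have hA1 : 1 ≤ A := by
          rcases Nat.eq_zero_or_pos A with h0 | h0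
          · rw [h0] at hlow
            omega
          · exact h0
        have hup : 4 * A ≤ 3 * k * b := by
          have h3 : 2 * A ≤ A * l := by
            calc 2 * A = A * 2 := by ring
              _ ≤ A * l := Nat.mul_le_mul_left A h2
          have h4 : (k - l + 1) * b ≤ k * b := Nat.mul_le_mul_right b (by omega)
          have h5 : 3 * k * b = 3 * (k * b) := by ring
          omega
        have hup2 : 4 * b ≤ 3 * k * A := by
          have h5 : 3 * k * A = 3 * (k * A) := by ring
          omega
        have hx1 : BL p s n w R r F M L 1 A b xT := hBL A b hA1 hn.le hb1 hb hbn hup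
        have hx2 : BL p s n w R r F M L 1 b A xT := hBL b A hb1 hbn hA1 hA hn.le hup2
        have hx3 := hB3 1 b A xT hx2
        have hlam0 : 0 ≤ (σ l - 1) / (s - 2) := div_nonneg (by linarith) (by linarith)
        have hlam1 : (σ l - 1) / (s - 2) ≤ 1 := by
          rw [div_le_one (by linarith)]; linarith
        have h := hBI p n A b s M L 1 (s - 1) ((σ l - 1) / (s - 2)) xT xT hp hM (by norm_num)
          (by linarith) (by linarith) (by linarith) hlam0 hlam1 ι Ω w R r F hw hx1 hx3
        have e1 : (1 - (σ l - 1) / (s - 2)) * 1 + (σ l - 1) / (s - 2) * (s - 1) = σ l := by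
          have : s - 2 ≠ 0 := by linarith
          field_simp
          ring
        have e2 : (1 - (σ l - 1) / (s - 2)) * xT + (σ l - 1) / (s - 2) * xT = xT := by ring
        rw [e1, e2] at h
        exact h

end Pool.Agent.H53.VMV
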